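import Pool.Agent.Helper76.TC.Goals

/-!
# Project TC (MP_ccd65d_gt), packet TC-PK: the packing bound of the example
-/

set_option autoImplicit false

open Set

namespace Pool.Agent.Helper57.TC.PK

open Pool.Agent.Helper76.TC

/-- the number of integers between `⌊a - b⌋` and `⌊a + b⌋` -/
theorem card_icc (a b : ℝ) (hb : 0 ≤ b) :
    ((Finset.Icc ⌊a - b⌋ ⌊a + b⌋).card : ℝ) ≤ 2 * b + 2 := by
  rw [Int.card_Icc]
  have h1 : ⌊a - b⌋ ≤ ⌊a + b⌋ := Int.floor_le_floor (by linarith)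
  have h2 : (((⌊a + b⌋ + 1 - ⌊a - b⌋).toNat : ℕ) : ℝ) = (⌊a + b⌋ : ℝ) + 1 - ⌊a - b⌋ := by
    have h3 : (((⌊a + b⌋ + 1 - ⌊a - b⌋).toNat : ℕ) : ℤ) = ⌊a + b⌋ + 1 - ⌊a - b⌋ :=
      Int.toNat_of_nonneg (by linarith)
    have h4 : ((((⌊a + b⌋ + 1 - ⌊a - b⌋).toNat : ℕ) : ℤ) : ℝ) = ((⌊a + b⌋ + 1 - ⌊a - b⌋ : ℤ) : ℝ) := by
      rw [h3]
    push_cast at h4
    exact_mod_cast h4
  rw [h2]
  have h5 := Int.floor_le (a + b)
  have h6 := Int.lt_floor_add_one (a - b)
  linarith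

/-- membership: floors of nearby numbers -/
theorem mem_icc {r R s x : ℝ} (hr : 0 < r) (h : |s - x| ≤ R) :
    ⌊3 * s / r⌋ ∈ Finset.Icc ⌊3 * x / r - 3 * (R / r)⌋ ⌊3 * x / r + 3 * (R / r)⌋ := by
  have h1 := abs_le.mp h
  have e1 : 3 * x / r - 3 * (R / r) = 3 * (x - R) / r := by ring
  have e2 : 3 * x / r + 3 * (R / r) = 3 * (x + R) / r := by ring
  rw [Finset.mem_Icc, e1, e2]
  constructor
  · apply Int.floor_le_floor
    apply div_le_div_of_nonneg_right _ hr.le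
    linarith [h1.1]
  · apply Int.floor_le_floor
    apply div_le_div_of_nonneg_right _ hr.le
    linarith [h1.2]

/-- numbers with the same floor are close -/
theorem close {r s t : ℝ} (hr : 0 < r) (h : ⌊3 * s / r⌋ = ⌊3 * t / r⌋) : |s - t| ≤ r / 3 := by
  have h1 := Int.abs_sub_lt_one_of_floor_eq_floor h
  have h2 : 3 * s / r - 3 * t / r = 3 / r * (s - t) := by ring
  rw [h2, abs_mul, abs_of_pos (by positivity : (0 : ℝ) < 3 / r)] at h1
  have h3 : 3 / r * |s - t| * (r / 3) ≤ 1 * (r / 3) :=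
    mul_le_mul_of_nonneg_right h1.le (by positivity)
  have h4 : 3 / r * |s - t| * (r / 3) = |s - t| := by
    field_simp
  linarith

theorem t : S_PK := by
  intro m ε N R0 hε hN x r R hr hrR _ F hF hsep
  have hq : 1 ≤ R / r := by rw [le_div_iff₀ hr]; linarith
  have hb : 0 ≤ 3 * (R / r) := by positivity
  have hc : ∀ a : ℝ, ((Finset.Icc ⌊a - 3 * (R / r)⌋ ⌊a + 3 * (R / r)⌋).card : ℝ) ≤ 8 * (R / r) := by
    intro a
    have := card_icc a (3 * (R / r)) hb
    linarith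
  -- the map
  let g : (Fin (m + 3) → ℝ) → (Fin (m + 3) → ℤ) × ℤ :=
    fun z => (fun i => ⌊3 * (ε * z i) / r⌋, ⌊3 * uu m z / r⌋)
  let B : Fin (m + 3) → Finset ℤ := fun i =>
    Finset.Icc ⌊3 * (ε * x i) / r - 3 * (R / r)⌋ ⌊3 * (ε * x i) / r + 3 * (R / r)⌋
  let B' : Finset ℤ := Finset.Icc ⌊3 * uu m x / r - 3 * (R / r)⌋ ⌊3 * uu m x / r + 3 * (R / r)⌋
  have hmaps : ∀ z ∈ F, g z ∈ Fintype.piFinset B ×ˢ B' := by
    intro z hz
    have h1 := hF z hz
    unfold dd at h1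
    have h2 : 0 ≤ ε * ‖x - z‖ := by positivity
    have h3 : 0 ≤ |uu m x - uu m z| := abs_nonneg _
    rw [Finset.mem_product]
    constructor
    · rw [Fintype.mem_piFinset]
      intro i
      apply mem_icc hr
      have h4 : |(x - z) i| ≤ ‖x - z‖ := by
        have := norm_le_pi_norm (x - z) i
        rwa [Real.norm_eq_abs] at this
      have h5 : ε * z i - ε * x i = -(ε * (x - z) i) := by
        rw [Pi.sub_apply]; ring
      rw [h5, abs_neg, abs_mul, abs_of_pos hε]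
      have h6 : ε * |(x - z) i| ≤ ε * ‖x - z‖ := mul_le_mul_of_nonneg_left h4 hε.le
      linarith
    · apply mem_icc hr
      rw [abs_sub_comm]
      linarith
  have hinj : Set.InjOn g F := by
    intro z hz w hw hzw
    by_contra hne
    have h1 := hsep z hz w hw hne
    unfold dd at h1
    have h2 : (fun i => ⌊3 * (ε * z i) / r⌋) = fun i => ⌊3 * (ε * w i) / r⌋ := congrArg Prod.fst hzw
    have h3 : ⌊3 * uu m z / r⌋ = ⌊3 * uu m w / r⌋ := congrArg Prod.snd hzw
    have h4 := close hr h3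
    have h5 : ε * ‖z - w‖ ≤ r / 3 := by
      have h6 : ‖z - w‖ ≤ r / 3 / ε := by
        rw [pi_norm_le_iff_of_nonneg (by positivity)]
        intro i
        have h7 := close hr (congrFun h2 i)
        have h8 : ε * z i - ε * w i = ε * (z - w) i := by rw [Pi.sub_apply]; ring
        rw [h8, abs_mul, abs_of_pos hε] at h7
        rw [Real.norm_eq_abs, le_div_iff₀ hε]
        linarith
      rw [le_div_iff₀ hε] at h6
      linarith
    linarith
  have hcard : F.card ≤ (Fintype.piFinset B ×ˢ B').card :=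
    Finset.card_le_card_of_injOn g (fun z hz => hmaps z hz) hinj
  have h1 : (F.card : ℝ) ≤ (8 * (R / r)) ^ (m + 4) := by
    have h2 : (F.card : ℝ) ≤ ((Fintype.piFinset B ×ˢ B').card : ℝ) := by exact_mod_cast hcard
    rw [Finset.card_product, Fintype.card_piFinset] at h2
    push_cast at h2
    have h3 : (∏ i, ((B i).card : ℝ)) ≤ ∏ _i : Fin (m + 3), 8 * (R / r) :=
      Finset.prod_le_prod (fun i _ => Nat.cast_nonneg _) (fun i _ => hc _)
    rw [Finset.prod_const, Finset.card_univ, Fintype.card_fin] at h3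
    have h4 : ((B').card : ℝ) ≤ 8 * (R / r) := hc _
    have h5 : (∏ i, ((B i).card : ℝ)) * (B'.card : ℝ) ≤ (8 * (R / r)) ^ (m + 3) * (8 * (R / r)) :=
      mul_le_mul h3 h4 (Nat.cast_nonneg _) (by positivity)
    calc (F.card : ℝ) ≤ _ := h2
      _ ≤ _ := h5
      _ = (8 * (R / r)) ^ (m + 4) := by rw [← pow_succ]
  rw [mul_pow] at h1
  have h2 : (R / r) ^ (m + 4) ≤ (R / r) ^ N := by
    rw [← Real.rpow_natCast]
    apply Real.rpow_le_rpow_of_exponent_le hq
    push_cast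
    linarith
  have h3 : (8 : ℝ) ^ (m + 4) * (R / r) ^ (m + 4) ≤ 8 ^ (m + 4) * (R / r) ^ N :=
    mul_le_mul_of_nonneg_left h2 (by positivity)
  linarith

end Pool.Agent.Helper57.TC.PK
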